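import Mathlib

/-!
# The twist graph of colorful triangulations of the 14-gon is connected
-/

set_option autoImplicit false

namespace Pool.Agent.Results.MP_b57ad3_co.TwistFourteen

open Finset

/-! ### Definitions. The vertices of the `N`-gon are `0, 1, ..., N - 1`. -/

/-- `(a, b)` with `a < b` is a diagonal of the `N`-gon. -/
def IsDiag (N : ℕ) (p : ℕ × ℕ) : Prop := p.1 + 1 < p.2 ∧ p.2 < N ∧ ¬ (p.1 = 0 ∧ p.2 + 1 = N)

/-- Two diagonals cross. -/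
def Cross (p q : ℕ × ℕ) : Prop :=
  (p.1 < q.1 ∧ q.1 < p.2 ∧ p.2 < q.2) ∨ (q.1 < p.1 ∧ p.1 < q.2 ∧ q.2 < p.2)

/-- A triangulation: a maximal set of pairwise non-crossing diagonals. -/
structure IsTriangulation (N : ℕ) (T : Finset (ℕ × ℕ)) : Prop where
  diag : ∀ p ∈ T, IsDiag N p
  noncross : ∀ p ∈ T, ∀ q ∈ T, ¬ Cross p q
  maximal : ∀ p, IsDiag N p → (∀ q ∈ T, ¬ Cross p q) → p ∈ T

/-- `(a, b)` is a side of the polygon or a diagonal in `T`. -/
def Edge (N : ℕ) (T : Finset (ℕ × ℕ)) (a b : ℕ) : Prop :=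
  (a, b) ∈ T ∨ (a < b ∧ b < N ∧ (b = a + 1 ∨ (a = 0 ∧ b + 1 = N)))

/-- Every triangle has vertices of three different colors; the color of `i` is `i` modulo 3. -/
def IsColorful (N : ℕ) (T : Finset (ℕ × ℕ)) : Prop :=
  ∀ a b c, a < b → b < c → Edge N T a b → Edge N T b c → Edge N T a c →
    a % 3 ≠ b % 3 ∧ b % 3 ≠ c % 3 ∧ a % 3 ≠ c % 3

/-- `T'` is obtained from `T` by a twist in the hexagon with vertices `v₀ < ... < v₅`. -/
def Twist (N : ℕ) (T T' : Finset (ℕ × ℕ)) : Prop :=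
  ∃ v₀ v₁ v₂ v₃ v₄ v₅ : ℕ, v₀ < v₁ ∧ v₁ < v₂ ∧ v₂ < v₃ ∧ v₃ < v₄ ∧ v₄ < v₅ ∧
    Edge N T v₀ v₁ ∧ Edge N T v₁ v₂ ∧ Edge N T v₂ v₃ ∧ Edge N T v₃ v₄ ∧ Edge N T v₄ v₅ ∧
    Edge N T v₀ v₅ ∧
    (((v₀, v₂) ∈ T ∧ (v₂, v₄) ∈ T ∧ (v₀, v₄) ∈ T ∧
        T' = (T \ {(v₀, v₂), (v₂, v₄), (v₀, v₄)}) ∪ {(v₁, v₃), (v₃, v₅), (v₁, v₅)}) ∨
      ((v₁, v₃) ∈ T ∧ (v₃, v₅) ∈ T ∧ (v₁, v₅) ∈ T ∧
        T' = (T \ {(v₁, v₃), (v₃, v₅), (v₁, v₅)}) ∪ {(v₀, v₂), (v₂, v₄), (v₀, v₄)}))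

/-- The graph of colorful triangulations of the `N`-gon and twists. -/
def twistGraph (N : ℕ) :
    SimpleGraph {T : Finset (ℕ × ℕ) // IsTriangulation N T ∧ IsColorful N T} where
  Adj T T' := T ≠ T' ∧ (Twist N T.1 T'.1 ∨ Twist N T'.1 T.1)
  symm := ⟨fun _ _ h => ⟨h.1.symm, h.2.symm⟩⟩
  loopless := ⟨fun _ h => h.1 rfl⟩

/-! ### Enumeration of all colorful triangulations -/

/-- The diagonal `(a, b)`, if it is not a side. -/
def dg (a b : ℕ) : List (ℕ × ℕ) := bif Nat.beq b (Nat.succ a) then [] else [(a, b)]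

/-- The colors are different. -/
def col (i k j : ℕ) : Bool :=
  !(Nat.beq (i % 3) (k % 3)) && !(Nat.beq (k % 3) (j % 3)) && !(Nat.beq (i % 3) (j % 3))

/-- All triangulations of the polygon with vertices `i, ..., j` (with fuel `n`). -/
def en : ℕ → ℕ → ℕ → List (List (ℕ × ℕ))
  | 0, _, _ => [[]]
  | n + 1, i, j => bif Nat.beq j (Nat.succ i) then [[]] else
      (List.range (j - i - 1)).flatMap fun t =>
        bif col i (i + 1 + t) j then
          (en n i (i + 1 + t)).flatMap fun A => (en n (i + 1 + t) j).map fun B =>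
            dg i (i + 1 + t) ++ (dg (i + 1 + t) j ++ (A ++ B))
        else []

theorem col_iff (i k j : ℕ) : col i k j = true ↔ i % 3 ≠ k % 3 ∧ k % 3 ≠ j % 3 ∧ i % 3 ≠ j % 3 := by
  unfold col
  simp only [Bool.and_eq_true, Bool.not_eq_true', ← Bool.not_eq_true, Nat.beq_eq, ne_eq, and_assoc]

theorem mem_dg (a b : ℕ) (p : ℕ × ℕ) : p ∈ dg a b ↔ p = (a, b) ∧ b ≠ a + 1 := by
  unfold dg
  by_cases h : b = a + 1
  · simp [h]
  · have : Nat.beq b (Nat.succ a) = false := by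
      rw [← Bool.not_eq_true, Nat.beq_eq]
      exact h
    simp [this, h]

/-- Existence of the third vertex of the triangle below an edge. -/
theorem exists_apex (N : ℕ) (T : Finset (ℕ × ℕ)) (hT : IsTriangulation N T) (i j : ℕ)
    (hij : i + 1 < j) (hj : j < N) (he : Edge N T i j) :
    ∃ k, i < k ∧ k < j ∧ Edge N T i k ∧ Edge N T k j := by
  classical
  -- the largest `k < j` joined to `i`
  have hex : ∃ k, i < k ∧ k < j ∧ Edge N T i k ∧ ∀ k', k < k' → k' < j → ¬ Edge N T i k' := by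
    have hne : ((Finset.range j).filter fun k => i < k ∧ Edge N T i k).Nonempty := by
      refine ⟨i + 1, ?_⟩
      rw [Finset.mem_filter, Finset.mem_range]
      exact ⟨hij, by omega, Or.inr ⟨by omega, by omega, Or.inl rfl⟩⟩
    obtain ⟨k, hk, hmax⟩ := Finset.exists_max_image _ id hne
    rw [Finset.mem_filter, Finset.mem_range] at hk
    refine ⟨k, hk.2.1, hk.1, hk.2.2, fun k' h1 h2 h3 => ?_⟩
    have := hmax k' (by rw [Finset.mem_filter, Finset.mem_range]; exact ⟨h2, by omega, h3⟩)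
    simp only [id] at this
    omega
  obtain ⟨k, hik, hkj, hek, hmax⟩ := hex
  refine ⟨k, hik, hkj, hek, ?_⟩
  by_cases hkj1 : j = k + 1
  · exact Or.inr ⟨hkj, hj, Or.inl hkj1⟩
  · left
    apply hT.maximal
    · exact ⟨by simp only; omega, hj, by simp only; omega⟩
    · rintro ⟨a, b⟩ hab hc
      have hd := hT.diag _ hab
      simp only [Cross, IsDiag] at hc hd
      -- crossing with `(i, j)` is impossible
      have c1 : ¬ Cross (a, b) (i, j) := by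
        rcases he with he | he
        · exact hT.noncross _ hab _ he
        · simp only [Cross]
          omega
      have c2 : ¬ Cross (a, b) (i, k) := by
        rcases hek with he | he
        · exact hT.noncross _ hab _ he
        · simp only [Cross]
          omega
      simp only [Cross] at c1 c2
      have c3 : a = i → k < b → b < j → False := by
        intro h1 h2 h3
        exact hmax b h2 h3 (Or.inl (h1 ▸ hab))
      rcases hc with hc | hc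
      · omega
      · by_cases hai : a = i
        · exact c3 hai (by omega) (by omega)
        · omega

theorem en_complete (N : ℕ) (T : Finset (ℕ × ℕ)) (hT : IsTriangulation N T)
    (hc : IsColorful N T) (n : ℕ) : ∀ i j, i < j → j ≤ i + n → j < N → Edge N T i j →
      ∃ L ∈ en n i j, ∀ p : ℕ × ℕ, p ∈ L ↔ p ∈ T ∧ i ≤ p.1 ∧ p.2 ≤ j ∧ p ≠ (i, j) := by
  induction n with
  | zero =>
    intro i j hij hj
    omega
  | succ n ih =>
    intro i j hij hj hjN he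
    by_cases h1 : j = i + 1
    · refine ⟨[], ?_, ?_⟩
      · rw [en]
        have : Nat.beq j (Nat.succ i) = true := by
          rw [Nat.beq_eq]
          exact h1
        rw [this]
        simp
      · rintro ⟨a, b⟩
        simp only [List.not_mem_nil, false_iff, not_and]
        intro hab ha hb hne
        have hd := hT.diag _ hab
        simp only [IsDiag] at hd
        omega
    · obtain ⟨k, hik, hkj, he1, he2⟩ := exists_apex N T hT i j (by omega) hjN he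
      obtain ⟨A, hA, hA'⟩ := ih i k hik (by omega) (by omega) he1
      obtain ⟨B, hB, hB'⟩ := ih k j hkj (by omega) hjN he2
      refine ⟨dg i k ++ (dg k j ++ (A ++ B)), ?_, ?_⟩
      · rw [en]
        have : Nat.beq j (Nat.succ i) = false := by
          rw [← Bool.not_eq_true, Nat.beq_eq]
          exact h1
        rw [this, cond_false, List.mem_flatMap]
        have hk : i + 1 + (k - i - 1) = k := by omega
        refine ⟨k - i - 1, ?_, ?_⟩
        · rw [List.mem_range]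
          omega
        · have hcol : col i (i + 1 + (k - i - 1)) j = true := by
            rw [hk, col_iff]
            exact hc i k j hik hkj he1 he2 he
          rw [hcol, cond_true, hk, List.mem_flatMap]
          exact ⟨A, hA, List.mem_map.2 ⟨B, hB, rfl⟩⟩
      · rintro ⟨a, b⟩
        rw [List.mem_append, List.mem_append, List.mem_append, hA', hB', mem_dg, mem_dg]
        simp only [Prod.mk.injEq, ne_eq, not_and]
        constructor
        · rintro (⟨⟨rfl, rfl⟩, h⟩ | ⟨⟨rfl, rfl⟩, h⟩ | ⟨h, h2, h3, h4⟩ | ⟨h, h2, h3, h4⟩)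
          · refine ⟨?_, le_rfl, by omega, fun _ => by omega⟩
            rcases he1 with h' | h'
            · exact h'
            · omega
          · refine ⟨?_, by omega, le_rfl, fun h' => by omega⟩
            rcases he2 with h' | h'
            · exact h'
            · omega
          · exact ⟨h, h2, by omega, fun _ => by omega⟩
          · exact ⟨h, by omega, h3, fun h' => by omega⟩
        · rintro ⟨hab, h2, h3, h4⟩
          have hd := hT.diag _ hab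
          simp only [IsDiag] at hd
          have c1 : ¬ Cross (a, b) (i, k) := by
            rcases he1 with he | he
            · exact hT.noncross _ hab _ he
            · simp only [Cross]
              omega
          have c2 : ¬ Cross (a, b) (k, j) := by
            rcases he2 with he | he
            · exact hT.noncross _ hab _ he
            · simp only [Cross]
              omega
          simp only [Cross] at c1 c2
          by_cases hbk : b ≤ k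
          · by_cases hh : a = i ∧ b = k
            · exact Or.inl ⟨hh, by omega⟩
            · exact Or.inr (Or.inr (Or.inl ⟨hab, h2, hbk, fun h => fun h' => hh ⟨h, h'⟩⟩))
          · have hak : k ≤ a := by
              by_contra hcon
              have : a = i := by omega
              have : b = j := by omega
              omega
            by_cases hh : a = k ∧ b = j
            · exact Or.inr (Or.inl ⟨hh, by omega⟩)
            · exact Or.inr (Or.inr (Or.inr ⟨hab, hak, h3, fun h => fun h' => hh ⟨h, h'⟩⟩))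

/-! ### The list of the 140 colorful triangulations of the 14-gon -/

/-- The 140 colorful triangulations. -/
def EN : List (List (ℕ × ℕ)) :=
  [[(0, 2), (2, 13), (3, 13), (3, 5), (5, 13), (6, 13), (6, 8), (8, 13), (9, 13), (9, 11), (11,
  13)], [(0, 2), (2, 13), (3, 13), (3, 5), (5, 13), (6, 13), (6, 8), (8, 13), (8, 12), (8, 10),
  (10, 12)], [(0, 2), (2, 13), (3, 13), (3, 5), (5, 13), (6, 13), (6, 11), (11, 13), (7, 11),
  (7, 9), (9, 11)], [(0, 2), (2, 13), (3, 13), (3, 5), (5, 13), (6, 13), (6, 11), (11, 13), (6,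
  10), (6, 8), (8, 10)], [(0, 2), (2, 13), (3, 13), (3, 5), (5, 13), (5, 9), (9, 13), (5, 7),
  (7, 9), (9, 11), (11, 13)], [(0, 2), (2, 13), (3, 13), (3, 5), (5, 13), (5, 12), (5, 7), (7,
  12), (8, 12), (8, 10), (10, 12)], [(0, 2), (2, 13), (3, 13), (3, 5), (5, 13), (5, 12), (5, 7),
  (7, 12), (7, 11), (7, 9), (9, 11)], [(0, 2), (2, 13), (3, 13), (3, 5), (5, 13), (5, 12), (5,
  10), (10, 12), (6, 10), (6, 8), (8, 10)], [(0, 2), (2, 13), (3, 13), (3, 5), (5, 13), (5, 12),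
  (5, 10), (10, 12), (5, 9), (5, 7), (7, 9)], [(0, 2), (2, 13), (3, 13), (3, 8), (8, 13), (4,
  8), (4, 6), (6, 8), (9, 13), (9, 11), (11, 13)], [(0, 2), (2, 13), (3, 13), (3, 8), (8, 13),
  (4, 8), (4, 6), (6, 8), (8, 12), (8, 10), (10, 12)], [(0, 2), (2, 13), (3, 13), (3, 8), (8,
  13), (3, 7), (3, 5), (5, 7), (9, 13), (9, 11), (11, 13)], [(0, 2), (2, 13), (3, 13), (3, 8),
  (8, 13), (3, 7), (3, 5), (5, 7), (8, 12), (8, 10), (10, 12)], [(0, 2), (2, 13), (3, 13), (3,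
  11), (11, 13), (4, 11), (4, 6), (6, 11), (7, 11), (7, 9), (9, 11)], [(0, 2), (2, 13), (3, 13),
  (3, 11), (11, 13), (4, 11), (4, 6), (6, 11), (6, 10), (6, 8), (8, 10)], [(0, 2), (2, 13), (3,
  13), (3, 11), (11, 13), (4, 11), (4, 9), (9, 11), (5, 9), (5, 7), (7, 9)], [(0, 2), (2, 13),
  (3, 13), (3, 11), (11, 13), (4, 11), (4, 9), (9, 11), (4, 8), (4, 6), (6, 8)], [(0, 2), (2,
  13), (3, 13), (3, 11), (11, 13), (3, 7), (7, 11), (3, 5), (5, 7), (7, 9), (9, 11)], [(0, 2),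
  (2, 13), (3, 13), (3, 11), (11, 13), (3, 10), (3, 5), (5, 10), (6, 10), (6, 8), (8, 10)], [(0,
  2), (2, 13), (3, 13), (3, 11), (11, 13), (3, 10), (3, 5), (5, 10), (5, 9), (5, 7), (7, 9)],
  [(0, 2), (2, 13), (3, 13), (3, 11), (11, 13), (3, 10), (3, 8), (8, 10), (4, 8), (4, 6), (6,
  8)], [(0, 2), (2, 13), (3, 13), (3, 11), (11, 13), (3, 10), (3, 8), (8, 10), (3, 7), (3, 5),
  (5, 7)], [(0, 2), (2, 13), (2, 6), (6, 13), (2, 4), (4, 6), (6, 8), (8, 13), (9, 13), (9, 11),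
  (11, 13)], [(0, 2), (2, 13), (2, 6), (6, 13), (2, 4), (4, 6), (6, 8), (8, 13), (8, 12), (8,
  10), (10, 12)], [(0, 2), (2, 13), (2, 6), (6, 13), (2, 4), (4, 6), (6, 11), (11, 13), (7, 11),
  (7, 9), (9, 11)], [(0, 2), (2, 13), (2, 6), (6, 13), (2, 4), (4, 6), (6, 11), (11, 13), (6,
  10), (6, 8), (8, 10)], [(0, 2), (2, 13), (2, 9), (9, 13), (2, 4), (4, 9), (5, 9), (5, 7), (7,
  9), (9, 11), (11, 13)], [(0, 2), (2, 13), (2, 9), (9, 13), (2, 4), (4, 9), (4, 8), (4, 6), (6,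
  8), (9, 11), (11, 13)], [(0, 2), (2, 13), (2, 9), (9, 13), (2, 7), (7, 9), (3, 7), (3, 5), (5,
  7), (9, 11), (11, 13)], [(0, 2), (2, 13), (2, 9), (9, 13), (2, 7), (7, 9), (2, 6), (2, 4), (4,
  6), (9, 11), (11, 13)], [(0, 2), (2, 13), (2, 12), (2, 4), (4, 12), (5, 12), (5, 7), (7, 12),
  (8, 12), (8, 10), (10, 12)], [(0, 2), (2, 13), (2, 12), (2, 4), (4, 12), (5, 12), (5, 7), (7,
  12), (7, 11), (7, 9), (9, 11)], [(0, 2), (2, 13), (2, 12), (2, 4), (4, 12), (5, 12), (5, 10),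
  (10, 12), (6, 10), (6, 8), (8, 10)], [(0, 2), (2, 13), (2, 12), (2, 4), (4, 12), (5, 12), (5,
  10), (10, 12), (5, 9), (5, 7), (7, 9)], [(0, 2), (2, 13), (2, 12), (2, 4), (4, 12), (4, 8),
  (8, 12), (4, 6), (6, 8), (8, 10), (10, 12)], [(0, 2), (2, 13), (2, 12), (2, 4), (4, 12), (4,
  11), (4, 6), (6, 11), (7, 11), (7, 9), (9, 11)], [(0, 2), (2, 13), (2, 12), (2, 4), (4, 12),
  (4, 11), (4, 6), (6, 11), (6, 10), (6, 8), (8, 10)], [(0, 2), (2, 13), (2, 12), (2, 4), (4,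
  12), (4, 11), (4, 9), (9, 11), (5, 9), (5, 7), (7, 9)], [(0, 2), (2, 13), (2, 12), (2, 4), (4,
  12), (4, 11), (4, 9), (9, 11), (4, 8), (4, 6), (6, 8)], [(0, 2), (2, 13), (2, 12), (2, 7), (7,
  12), (3, 7), (3, 5), (5, 7), (8, 12), (8, 10), (10, 12)], [(0, 2), (2, 13), (2, 12), (2, 7),
  (7, 12), (3, 7), (3, 5), (5, 7), (7, 11), (7, 9), (9, 11)], [(0, 2), (2, 13), (2, 12), (2, 7),
  (7, 12), (2, 6), (2, 4), (4, 6), (8, 12), (8, 10), (10, 12)], [(0, 2), (2, 13), (2, 12), (2,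
  7), (7, 12), (2, 6), (2, 4), (4, 6), (7, 11), (7, 9), (9, 11)], [(0, 2), (2, 13), (2, 12), (2,
  10), (10, 12), (3, 10), (3, 5), (5, 10), (6, 10), (6, 8), (8, 10)], [(0, 2), (2, 13), (2, 12),
  (2, 10), (10, 12), (3, 10), (3, 5), (5, 10), (5, 9), (5, 7), (7, 9)], [(0, 2), (2, 13), (2,
  12), (2, 10), (10, 12), (3, 10), (3, 8), (8, 10), (4, 8), (4, 6), (6, 8)], [(0, 2), (2, 13),
  (2, 12), (2, 10), (10, 12), (3, 10), (3, 8), (8, 10), (3, 7), (3, 5), (5, 7)], [(0, 2), (2,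
  13), (2, 12), (2, 10), (10, 12), (2, 6), (6, 10), (2, 4), (4, 6), (6, 8), (8, 10)], [(0, 2),
  (2, 13), (2, 12), (2, 10), (10, 12), (2, 9), (2, 4), (4, 9), (5, 9), (5, 7), (7, 9)], [(0, 2),
  (2, 13), (2, 12), (2, 10), (10, 12), (2, 9), (2, 4), (4, 9), (4, 8), (4, 6), (6, 8)], [(0, 2),
  (2, 13), (2, 12), (2, 10), (10, 12), (2, 9), (2, 7), (7, 9), (3, 7), (3, 5), (5, 7)], [(0, 2),
  (2, 13), (2, 12), (2, 10), (10, 12), (2, 9), (2, 7), (7, 9), (2, 6), (2, 4), (4, 6)], [(0, 5),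
  (5, 13), (1, 5), (1, 3), (3, 5), (6, 13), (6, 8), (8, 13), (9, 13), (9, 11), (11, 13)], [(0,
  5), (5, 13), (1, 5), (1, 3), (3, 5), (6, 13), (6, 8), (8, 13), (8, 12), (8, 10), (10, 12)],
  [(0, 5), (5, 13), (1, 5), (1, 3), (3, 5), (6, 13), (6, 11), (11, 13), (7, 11), (7, 9), (9,
  11)], [(0, 5), (5, 13), (1, 5), (1, 3), (3, 5), (6, 13), (6, 11), (11, 13), (6, 10), (6, 8),
  (8, 10)], [(0, 5), (5, 13), (1, 5), (1, 3), (3, 5), (5, 9), (9, 13), (5, 7), (7, 9), (9, 11),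
  (11, 13)], [(0, 5), (5, 13), (1, 5), (1, 3), (3, 5), (5, 12), (5, 7), (7, 12), (8, 12), (8,
  10), (10, 12)], [(0, 5), (5, 13), (1, 5), (1, 3), (3, 5), (5, 12), (5, 7), (7, 12), (7, 11),
  (7, 9), (9, 11)], [(0, 5), (5, 13), (1, 5), (1, 3), (3, 5), (5, 12), (5, 10), (10, 12), (6,
  10), (6, 8), (8, 10)], [(0, 5), (5, 13), (1, 5), (1, 3), (3, 5), (5, 12), (5, 10), (10, 12),
  (5, 9), (5, 7), (7, 9)], [(0, 5), (5, 13), (0, 4), (0, 2), (2, 4), (6, 13), (6, 8), (8, 13),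
  (9, 13), (9, 11), (11, 13)], [(0, 5), (5, 13), (0, 4), (0, 2), (2, 4), (6, 13), (6, 8), (8,
  13), (8, 12), (8, 10), (10, 12)], [(0, 5), (5, 13), (0, 4), (0, 2), (2, 4), (6, 13), (6, 11),
  (11, 13), (7, 11), (7, 9), (9, 11)], [(0, 5), (5, 13), (0, 4), (0, 2), (2, 4), (6, 13), (6,
  11), (11, 13), (6, 10), (6, 8), (8, 10)], [(0, 5), (5, 13), (0, 4), (0, 2), (2, 4), (5, 9),
  (9, 13), (5, 7), (7, 9), (9, 11), (11, 13)], [(0, 5), (5, 13), (0, 4), (0, 2), (2, 4), (5,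
  12), (5, 7), (7, 12), (8, 12), (8, 10), (10, 12)], [(0, 5), (5, 13), (0, 4), (0, 2), (2, 4),
  (5, 12), (5, 7), (7, 12), (7, 11), (7, 9), (9, 11)], [(0, 5), (5, 13), (0, 4), (0, 2), (2, 4),
  (5, 12), (5, 10), (10, 12), (6, 10), (6, 8), (8, 10)], [(0, 5), (5, 13), (0, 4), (0, 2), (2,
  4), (5, 12), (5, 10), (10, 12), (5, 9), (5, 7), (7, 9)], [(0, 8), (8, 13), (1, 8), (1, 3), (3,
  8), (4, 8), (4, 6), (6, 8), (9, 13), (9, 11), (11, 13)], [(0, 8), (8, 13), (1, 8), (1, 3), (3,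
  8), (4, 8), (4, 6), (6, 8), (8, 12), (8, 10), (10, 12)], [(0, 8), (8, 13), (1, 8), (1, 3), (3,
  8), (3, 7), (3, 5), (5, 7), (9, 13), (9, 11), (11, 13)], [(0, 8), (8, 13), (1, 8), (1, 3), (3,
  8), (3, 7), (3, 5), (5, 7), (8, 12), (8, 10), (10, 12)], [(0, 8), (8, 13), (1, 8), (1, 6), (6,
  8), (2, 6), (2, 4), (4, 6), (9, 13), (9, 11), (11, 13)], [(0, 8), (8, 13), (1, 8), (1, 6), (6,
  8), (2, 6), (2, 4), (4, 6), (8, 12), (8, 10), (10, 12)], [(0, 8), (8, 13), (1, 8), (1, 6), (6,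
  8), (1, 5), (1, 3), (3, 5), (9, 13), (9, 11), (11, 13)], [(0, 8), (8, 13), (1, 8), (1, 6), (6,
  8), (1, 5), (1, 3), (3, 5), (8, 12), (8, 10), (10, 12)], [(0, 8), (8, 13), (0, 4), (4, 8), (0,
  2), (2, 4), (4, 6), (6, 8), (9, 13), (9, 11), (11, 13)], [(0, 8), (8, 13), (0, 4), (4, 8), (0,
  2), (2, 4), (4, 6), (6, 8), (8, 12), (8, 10), (10, 12)], [(0, 8), (8, 13), (0, 7), (0, 2), (2,
  7), (3, 7), (3, 5), (5, 7), (9, 13), (9, 11), (11, 13)], [(0, 8), (8, 13), (0, 7), (0, 2), (2,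
  7), (3, 7), (3, 5), (5, 7), (8, 12), (8, 10), (10, 12)], [(0, 8), (8, 13), (0, 7), (0, 2), (2,
  7), (2, 6), (2, 4), (4, 6), (9, 13), (9, 11), (11, 13)], [(0, 8), (8, 13), (0, 7), (0, 2), (2,
  7), (2, 6), (2, 4), (4, 6), (8, 12), (8, 10), (10, 12)], [(0, 8), (8, 13), (0, 7), (0, 5), (5,
  7), (1, 5), (1, 3), (3, 5), (9, 13), (9, 11), (11, 13)], [(0, 8), (8, 13), (0, 7), (0, 5), (5,
  7), (1, 5), (1, 3), (3, 5), (8, 12), (8, 10), (10, 12)], [(0, 8), (8, 13), (0, 7), (0, 5), (5,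
  7), (0, 4), (0, 2), (2, 4), (9, 13), (9, 11), (11, 13)], [(0, 8), (8, 13), (0, 7), (0, 5), (5,
  7), (0, 4), (0, 2), (2, 4), (8, 12), (8, 10), (10, 12)], [(0, 11), (11, 13), (1, 11), (1, 3),
  (3, 11), (4, 11), (4, 6), (6, 11), (7, 11), (7, 9), (9, 11)], [(0, 11), (11, 13), (1, 11), (1,
  3), (3, 11), (4, 11), (4, 6), (6, 11), (6, 10), (6, 8), (8, 10)], [(0, 11), (11, 13), (1, 11),
  (1, 3), (3, 11), (4, 11), (4, 9), (9, 11), (5, 9), (5, 7), (7, 9)], [(0, 11), (11, 13), (1,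
  11), (1, 3), (3, 11), (4, 11), (4, 9), (9, 11), (4, 8), (4, 6), (6, 8)], [(0, 11), (11, 13),
  (1, 11), (1, 3), (3, 11), (3, 7), (7, 11), (3, 5), (5, 7), (7, 9), (9, 11)], [(0, 11), (11,
  13), (1, 11), (1, 3), (3, 11), (3, 10), (3, 5), (5, 10), (6, 10), (6, 8), (8, 10)], [(0, 11),
  (11, 13), (1, 11), (1, 3), (3, 11), (3, 10), (3, 5), (5, 10), (5, 9), (5, 7), (7, 9)], [(0,
  11), (11, 13), (1, 11), (1, 3), (3, 11), (3, 10), (3, 8), (8, 10), (4, 8), (4, 6), (6, 8)],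
  [(0, 11), (11, 13), (1, 11), (1, 3), (3, 11), (3, 10), (3, 8), (8, 10), (3, 7), (3, 5), (5,
  7)], [(0, 11), (11, 13), (1, 11), (1, 6), (6, 11), (2, 6), (2, 4), (4, 6), (7, 11), (7, 9),
  (9, 11)], [(0, 11), (11, 13), (1, 11), (1, 6), (6, 11), (2, 6), (2, 4), (4, 6), (6, 10), (6,
  8), (8, 10)], [(0, 11), (11, 13), (1, 11), (1, 6), (6, 11), (1, 5), (1, 3), (3, 5), (7, 11),
  (7, 9), (9, 11)], [(0, 11), (11, 13), (1, 11), (1, 6), (6, 11), (1, 5), (1, 3), (3, 5), (6,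
  10), (6, 8), (8, 10)], [(0, 11), (11, 13), (1, 11), (1, 9), (9, 11), (2, 9), (2, 4), (4, 9),
  (5, 9), (5, 7), (7, 9)], [(0, 11), (11, 13), (1, 11), (1, 9), (9, 11), (2, 9), (2, 4), (4, 9),
  (4, 8), (4, 6), (6, 8)], [(0, 11), (11, 13), (1, 11), (1, 9), (9, 11), (2, 9), (2, 7), (7, 9),
  (3, 7), (3, 5), (5, 7)], [(0, 11), (11, 13), (1, 11), (1, 9), (9, 11), (2, 9), (2, 7), (7, 9),
  (2, 6), (2, 4), (4, 6)], [(0, 11), (11, 13), (1, 11), (1, 9), (9, 11), (1, 5), (5, 9), (1, 3),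
  (3, 5), (5, 7), (7, 9)], [(0, 11), (11, 13), (1, 11), (1, 9), (9, 11), (1, 8), (1, 3), (3, 8),
  (4, 8), (4, 6), (6, 8)], [(0, 11), (11, 13), (1, 11), (1, 9), (9, 11), (1, 8), (1, 3), (3, 8),
  (3, 7), (3, 5), (5, 7)], [(0, 11), (11, 13), (1, 11), (1, 9), (9, 11), (1, 8), (1, 6), (6, 8),
  (2, 6), (2, 4), (4, 6)], [(0, 11), (11, 13), (1, 11), (1, 9), (9, 11), (1, 8), (1, 6), (6, 8),
  (1, 5), (1, 3), (3, 5)], [(0, 11), (11, 13), (0, 4), (4, 11), (0, 2), (2, 4), (4, 6), (6, 11),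
  (7, 11), (7, 9), (9, 11)], [(0, 11), (11, 13), (0, 4), (4, 11), (0, 2), (2, 4), (4, 6), (6,
  11), (6, 10), (6, 8), (8, 10)], [(0, 11), (11, 13), (0, 4), (4, 11), (0, 2), (2, 4), (4, 9),
  (9, 11), (5, 9), (5, 7), (7, 9)], [(0, 11), (11, 13), (0, 4), (4, 11), (0, 2), (2, 4), (4, 9),
  (9, 11), (4, 8), (4, 6), (6, 8)], [(0, 11), (11, 13), (0, 7), (7, 11), (0, 2), (2, 7), (3, 7),
  (3, 5), (5, 7), (7, 9), (9, 11)], [(0, 11), (11, 13), (0, 7), (7, 11), (0, 2), (2, 7), (2, 6),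
  (2, 4), (4, 6), (7, 9), (9, 11)], [(0, 11), (11, 13), (0, 7), (7, 11), (0, 5), (5, 7), (1, 5),
  (1, 3), (3, 5), (7, 9), (9, 11)], [(0, 11), (11, 13), (0, 7), (7, 11), (0, 5), (5, 7), (0, 4),
  (0, 2), (2, 4), (7, 9), (9, 11)], [(0, 11), (11, 13), (0, 10), (0, 2), (2, 10), (3, 10), (3,
  5), (5, 10), (6, 10), (6, 8), (8, 10)], [(0, 11), (11, 13), (0, 10), (0, 2), (2, 10), (3, 10),
  (3, 5), (5, 10), (5, 9), (5, 7), (7, 9)], [(0, 11), (11, 13), (0, 10), (0, 2), (2, 10), (3,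
  10), (3, 8), (8, 10), (4, 8), (4, 6), (6, 8)], [(0, 11), (11, 13), (0, 10), (0, 2), (2, 10),
  (3, 10), (3, 8), (8, 10), (3, 7), (3, 5), (5, 7)], [(0, 11), (11, 13), (0, 10), (0, 2), (2,
  10), (2, 6), (6, 10), (2, 4), (4, 6), (6, 8), (8, 10)], [(0, 11), (11, 13), (0, 10), (0, 2),
  (2, 10), (2, 9), (2, 4), (4, 9), (5, 9), (5, 7), (7, 9)], [(0, 11), (11, 13), (0, 10), (0, 2),
  (2, 10), (2, 9), (2, 4), (4, 9), (4, 8), (4, 6), (6, 8)], [(0, 11), (11, 13), (0, 10), (0, 2),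
  (2, 10), (2, 9), (2, 7), (7, 9), (3, 7), (3, 5), (5, 7)], [(0, 11), (11, 13), (0, 10), (0, 2),
  (2, 10), (2, 9), (2, 7), (7, 9), (2, 6), (2, 4), (4, 6)], [(0, 11), (11, 13), (0, 10), (0, 5),
  (5, 10), (1, 5), (1, 3), (3, 5), (6, 10), (6, 8), (8, 10)], [(0, 11), (11, 13), (0, 10), (0,
  5), (5, 10), (1, 5), (1, 3), (3, 5), (5, 9), (5, 7), (7, 9)], [(0, 11), (11, 13), (0, 10), (0,
  5), (5, 10), (0, 4), (0, 2), (2, 4), (6, 10), (6, 8), (8, 10)], [(0, 11), (11, 13), (0, 10),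
  (0, 5), (5, 10), (0, 4), (0, 2), (2, 4), (5, 9), (5, 7), (7, 9)], [(0, 11), (11, 13), (0, 10),
  (0, 8), (8, 10), (1, 8), (1, 3), (3, 8), (4, 8), (4, 6), (6, 8)], [(0, 11), (11, 13), (0, 10),
  (0, 8), (8, 10), (1, 8), (1, 3), (3, 8), (3, 7), (3, 5), (5, 7)], [(0, 11), (11, 13), (0, 10),
  (0, 8), (8, 10), (1, 8), (1, 6), (6, 8), (2, 6), (2, 4), (4, 6)], [(0, 11), (11, 13), (0, 10),
  (0, 8), (8, 10), (1, 8), (1, 6), (6, 8), (1, 5), (1, 3), (3, 5)], [(0, 11), (11, 13), (0, 10),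
  (0, 8), (8, 10), (0, 4), (4, 8), (0, 2), (2, 4), (4, 6), (6, 8)], [(0, 11), (11, 13), (0, 10),
  (0, 8), (8, 10), (0, 7), (0, 2), (2, 7), (3, 7), (3, 5), (5, 7)], [(0, 11), (11, 13), (0, 10),
  (0, 8), (8, 10), (0, 7), (0, 2), (2, 7), (2, 6), (2, 4), (4, 6)], [(0, 11), (11, 13), (0, 10),
  (0, 8), (8, 10), (0, 7), (0, 5), (5, 7), (1, 5), (1, 3), (3, 5)], [(0, 11), (11, 13), (0, 10),
  (0, 8), (8, 10), (0, 7), (0, 5), (5, 7), (0, 4), (0, 2), (2, 4)]]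

/-- Parents in a spanning tree. -/
def parT : List ℕ :=
  [1, 5, 24, 2, 17, 6, 2, 3, 7, 10, 34, 12, 39, 17, 13, 19, 38, 40, 43, 18, 21, 17, 23, 41, 0, 24,
  4, 113, 114, 51, 31, 6, 7, 32, 47, 31, 35, 38, 34, 40, 42, 42, 24, 47, 43, 46, 21, 25, 44, 48,
  51, 47, 56, 52, 55, 59, 116, 53, 57, 60, 56, 65, 61, 64, 68, 117, 62, 66, 69, 65, 71, 79, 73,
  71, 75, 77, 77, 85, 79, 23, 81, 73, 83, 81, 85, 87, 87, 79, 110, 88, 94, 95, 88, 89, 93, 96,
  92, 99, 97, 116, 99, 105, 101, 125, 108, 92, 131, 132, 109, 105, 24, 110, 130, 135, 92, 114,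
  117, 110, 93, 118, 121, 96, 135, 101, 123, 121, 122, 129, 105, 111, 129, 135, 136, 134, 138,
  139, 114, 136, 116, 117]

/-- Depths in a spanning tree. -/
def depT : List ℕ :=
  [5, 4, 1, 2, 4, 3, 2, 3, 4, 5, 4, 5, 4, 4, 5, 6, 5, 3, 4, 5, 5, 4, 4, 3, 0, 1, 5, 6, 5, 4, 4, 3,
  4, 5, 3, 4, 5, 5, 4, 3, 2, 2, 1, 3, 4, 6, 5, 2, 5, 6, 4, 3, 5, 6, 8, 7, 4, 7, 8, 6, 5, 4, 5,
  7, 6, 3, 6, 7, 5, 4, 6, 5, 7, 6, 9, 8, 8, 7, 5, 4, 8, 7, 9, 8, 7, 6, 6, 5, 2, 3, 6, 6, 3, 4,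
  5, 5, 4, 5, 6, 4, 5, 5, 6, 7, 7, 4, 6, 7, 6, 5, 1, 2, 5, 5, 4, 5, 3, 2, 5, 6, 6, 5, 5, 6, 7,
  6, 6, 4, 5, 3, 4, 5, 6, 6, 5, 4, 5, 6, 4, 3]

/-- Hexagons of the twists to the parents. -/
def hexT : List (List ℕ) :=
  [[8, 9, 10, 11, 12, 13], [5, 6, 7, 8, 12, 13], [2, 3, 4, 5, 6, 13], [6, 7, 8, 9, 10, 11], [3, 5,
  7, 9, 11, 13], [7, 8, 9, 10, 11, 12], [5, 6, 7, 11, 12, 13], [5, 6, 10, 11, 12, 13], [5, 6, 7,
  8, 9, 10], [8, 9, 10, 11, 12, 13], [2, 3, 4, 8, 12, 13], [8, 9, 10, 11, 12, 13], [2, 3, 7, 8,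
  12, 13], [3, 4, 5, 6, 7, 11], [6, 7, 8, 9, 10, 11], [3, 4, 5, 9, 10, 11], [2, 3, 4, 11, 12,
  13], [2, 3, 7, 11, 12, 13], [2, 3, 10, 11, 12, 13], [5, 6, 7, 8, 9, 10], [3, 4, 5, 6, 7, 8],
  [3, 7, 8, 9, 10, 11], [8, 9, 10, 11, 12, 13], [2, 6, 7, 8, 12, 13], [0, 0, 0, 0, 0, 0], [6, 7,
  8, 9, 10, 11], [2, 3, 4, 5, 9, 13], [0, 2, 4, 9, 11, 13], [0, 2, 7, 9, 11, 13], [2, 9, 10, 11,
  12, 13], [7, 8, 9, 10, 11, 12], [2, 3, 4, 5, 12, 13], [2, 3, 4, 5, 12, 13], [5, 6, 7, 8, 9,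
  10], [2, 4, 6, 8, 10, 12], [4, 5, 6, 7, 11, 12], [6, 7, 8, 9, 10, 11], [4, 5, 6, 7, 8, 9], [4,
  8, 9, 10, 11, 12], [7, 8, 9, 10, 11, 12], [2, 3, 4, 5, 6, 7], [7, 8, 9, 10, 11, 12], [2, 6, 7,
  11, 12, 13], [2, 3, 4, 5, 6, 10], [5, 6, 7, 8, 9, 10], [3, 4, 5, 6, 7, 8], [2, 3, 10, 11, 12,
  13], [2, 6, 10, 11, 12, 13], [2, 3, 4, 5, 9, 10], [4, 5, 6, 7, 8, 9], [2, 3, 4, 5, 6, 7], [2,
  6, 7, 8, 9, 10], [5, 6, 7, 8, 9, 13], [8, 9, 10, 11, 12, 13], [6, 7, 8, 9, 10, 11], [5, 6, 10,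
  11, 12, 13], [0, 5, 7, 9, 11, 13], [5, 6, 7, 8, 12, 13], [7, 8, 9, 10, 11, 12], [5, 6, 7, 8,
  9, 10], [5, 9, 10, 11, 12, 13], [5, 6, 7, 8, 9, 13], [8, 9, 10, 11, 12, 13], [6, 7, 8, 9, 10,
  11], [5, 6, 10, 11, 12, 13], [0, 5, 7, 9, 11, 13], [5, 6, 7, 8, 12, 13], [7, 8, 9, 10, 11,
  12], [5, 6, 7, 8, 9, 10], [5, 9, 10, 11, 12, 13], [8, 9, 10, 11, 12, 13], [0, 1, 2, 3, 4, 8],
  [8, 9, 10, 11, 12, 13], [3, 4, 5, 6, 7, 8], [8, 9, 10, 11, 12, 13], [1, 2, 3, 4, 5, 6], [8, 9,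
  10, 11, 12, 13], [0, 1, 5, 6, 7, 8], [8, 9, 10, 11, 12, 13], [0, 2, 4, 6, 8, 13], [8, 9, 10,
  11, 12, 13], [0, 1, 2, 3, 7, 8], [8, 9, 10, 11, 12, 13], [2, 3, 4, 5, 6, 7], [8, 9, 10, 11,
  12, 13], [0, 1, 2, 3, 4, 5], [8, 9, 10, 11, 12, 13], [0, 4, 5, 6, 7, 8], [0, 1, 2, 3, 4, 11],
  [6, 7, 8, 9, 10, 11], [3, 4, 5, 9, 10, 11], [3, 4, 8, 9, 10, 11], [3, 4, 5, 6, 7, 11], [3, 4,
  5, 6, 10, 11], [5, 6, 7, 8, 9, 10], [3, 4, 5, 6, 7, 8], [3, 7, 8, 9, 10, 11], [1, 2, 3, 4, 5,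
  6], [6, 7, 8, 9, 10, 11], [0, 1, 5, 6, 7, 11], [6, 7, 8, 9, 10, 11], [1, 2, 3, 4, 5, 9], [4,
  5, 6, 7, 8, 9], [0, 1, 2, 9, 10, 11], [1, 2, 6, 7, 8, 9], [1, 3, 5, 7, 9, 11], [0, 1, 8, 9,
  10, 11], [0, 1, 8, 9, 10, 11], [1, 2, 3, 4, 5, 6], [1, 5, 6, 7, 8, 9], [0, 2, 4, 6, 11, 13],
  [6, 7, 8, 9, 10, 11], [0, 4, 5, 9, 10, 11], [0, 4, 8, 9, 10, 11], [0, 1, 2, 3, 7, 11], [2, 3,
  4, 5, 6, 7], [0, 1, 2, 3, 4, 5], [0, 4, 5, 6, 7, 11], [0, 1, 2, 3, 10, 11], [5, 6, 7, 8, 9,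
  10], [3, 4, 5, 6, 7, 8], [0, 1, 2, 3, 10, 11], [0, 2, 4, 6, 8, 10], [0, 1, 2, 9, 10, 11], [4,
  5, 6, 7, 8, 9], [2, 3, 7, 8, 9, 10], [2, 6, 7, 8, 9, 10], [0, 1, 2, 3, 4, 5], [0, 1, 5, 9, 10,
  11], [0, 4, 5, 6, 10, 11], [5, 6, 7, 8, 9, 10], [0, 1, 2, 3, 4, 8], [0, 1, 2, 3, 7, 8], [1, 2,
  3, 4, 5, 6], [0, 1, 5, 6, 7, 8], [0, 4, 5, 6, 7, 8], [0, 7, 8, 9, 10, 11], [2, 3, 4, 5, 6, 7],
  [0, 7, 8, 9, 10, 11], [0, 7, 8, 9, 10, 11]]

theorem en_eq : en 13 0 13 = EN := by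
  decide +kernel

/-- Membership. -/
def mem (a b : ℕ) : List (ℕ × ℕ) → Bool
  | [] => false
  | p :: l => bif Nat.beq p.1 a then (bif Nat.beq p.2 b then true else mem a b l) else mem a b l

theorem mem_iff (a b : ℕ) (l : List (ℕ × ℕ)) : mem a b l = true ↔ (a, b) ∈ l := by
  induction l with
  | nil => simp [mem]
  | cons p l ih =>
    obtain ⟨c, d⟩ := p
    simp only [mem, List.mem_cons, Prod.mk.injEq]
    by_cases h1 : c = a
    · by_cases h2 : d = b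
      · simp [h1, h2]
      · have : Nat.beq d b = false := by
          rw [← Bool.not_eq_true, Nat.beq_eq]
          exact h2
        simp only [h1, this, Nat.beq_refl, cond_true, cond_false, ih]
        constructor
        · exact Or.inr
        · rintro (⟨-, h⟩ | h)
          · exact absurd h.symm h2
          · exact h
    · have : Nat.beq c a = false := by
        rw [← Bool.not_eq_true, Nat.beq_eq]
        exact h1
      simp only [this, cond_false, ih]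
      constructor
      · exact Or.inr
      · rintro (⟨h, -⟩ | h)
        · exact absurd h.symm h1
        · exact h

/-- Diagonals of the 14-gon. -/
def isDiagB (a b : ℕ) : Bool :=
  Nat.blt (a + 1) b && (Nat.blt b 14 && !(Nat.beq a 0 && Nat.beq b 13))

theorem isDiagB_iff (a b : ℕ) : isDiagB a b = true ↔ IsDiag 14 (a, b) := by
  unfold isDiagB IsDiag
  simp only [Bool.and_eq_true, Nat.blt_eq, Bool.not_eq_true', ← Bool.not_eq_true, Nat.beq_eq]
  constructor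
  · rintro ⟨h1, h2, h3⟩
    exact ⟨h1, h2, by omega⟩
  · rintro ⟨h1, h2, h3⟩
    exact ⟨h1, h2, by omega⟩

/-- Crossing. -/
def crossB (a b c d : ℕ) : Bool :=
  (Nat.blt a c && (Nat.blt c b && Nat.blt b d)) || (Nat.blt c a && (Nat.blt a d && Nat.blt d b))

theorem crossB_iff (p q : ℕ × ℕ) : crossB p.1 p.2 q.1 q.2 = true ↔ Cross p q := by
  unfold crossB Cross
  simp only [Bool.or_eq_true, Bool.and_eq_true, Nat.blt_eq]

/-- Edges. -/
def edgeB (l : List (ℕ × ℕ)) (a b : ℕ) : Bool :=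
  mem a b l || (Nat.blt a b && (Nat.blt b 14 && (Nat.beq b (a + 1) ||
    (Nat.beq a 0 && Nat.beq b 13))))

theorem edgeB_iff (l : List (ℕ × ℕ)) (a b : ℕ) :
    edgeB l a b = true ↔ Edge 14 l.toFinset a b := by
  unfold edgeB Edge
  rw [Bool.or_eq_true, mem_iff, List.mem_toFinset]
  simp only [Bool.or_eq_true, Bool.and_eq_true, Nat.blt_eq, Nat.beq_eq]
  constructor
  · rintro (h | ⟨h1, h2, h3⟩)
    · exact Or.inl h
    · exact Or.inr ⟨h1, h2, by omega⟩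
  · rintro (h | ⟨h1, h2, h3⟩)
    · exact Or.inl h
    · exact Or.inr ⟨h1, h2, by omega⟩

/-- Validity of one list. -/
def valid (l : List (ℕ × ℕ)) : Bool :=
  (l.all fun p => isDiagB p.1 p.2) &&
  ((l.all fun p => l.all fun q => !crossB p.1 p.2 q.1 q.2) &&
  (((List.range 14).all fun a => (List.range 14).all fun b =>
      bif isDiagB a b then (bif mem a b l then true else l.any fun q => crossB a b q.1 q.2)
      else true) &&
    ((List.range 14).all fun a => (List.range 14).all fun b =>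
      bif (Nat.blt a b && edgeB l a b) then ((List.range 14).all fun c =>
        bif (Nat.blt b c && (edgeB l b c && edgeB l a c)) then col a b c else true) else true)))

theorem valid_spec (l : List (ℕ × ℕ)) (h : valid l = true) :
    IsTriangulation 14 l.toFinset ∧ IsColorful 14 l.toFinset := by
  unfold valid at h
  simp only [Bool.and_eq_true, List.all_eq_true, List.mem_range] at h
  obtain ⟨h1, h2, h3, h4⟩ := h
  refine ⟨⟨?_, ?_, ?_⟩, ?_⟩
  · intro p hp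
    rw [List.mem_toFinset] at hp
    exact (isDiagB_iff _ _).1 (h1 p hp)
  · intro p hp q hq hc
    rw [List.mem_toFinset] at hp hq
    have := h2 p hp q hq
    rw [(crossB_iff p q).2 hc] at this
    exact absurd this (by simp)
  · rintro ⟨a, b⟩ hd hc
    rw [List.mem_toFinset]
    have hd' := hd
    simp only [IsDiag] at hd'
    have := h3 a (by omega) b (by omega)
    rw [(isDiagB_iff a b).2 hd, cond_true] at this
    cases hm : mem a b l
    · rw [hm, cond_false, List.any_eq_true] at this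
      obtain ⟨q, hq, hcq⟩ := this
      exact absurd ((crossB_iff (a, b) q).1 hcq) (hc q (List.mem_toFinset.2 hq))
    · exact (mem_iff a b l).1 hm
  · intro a b c hab hbc e1 e2 e3
    have hc14 : c < 14 := by
      rcases e2 with h | h
      · rw [List.mem_toFinset] at h
        have := (isDiagB_iff _ _).1 (h1 _ h)
        exact this.2.1
      · exact h.2.1
    have := h4 a (by omega) b (by omega)
    have x1 : (Nat.blt a b && edgeB l a b) = true := by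
      rw [Bool.and_eq_true, Nat.blt_eq, edgeB_iff]
      exact ⟨hab, e1⟩
    rw [x1, cond_true, List.all_eq_true] at this
    have := this c (List.mem_range.2 hc14)
    have x2 : (Nat.blt b c && (edgeB l b c && edgeB l a c)) = true := by
      rw [Bool.and_eq_true, Bool.and_eq_true, Nat.blt_eq, edgeB_iff, edgeB_iff]
      exact ⟨hbc, e2, e3⟩
    rw [x2, cond_true] at this
    exact (col_iff a b c).1 this

/-- Check that `m` arises from `l` by replacing `X` by `Y`. -/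
def exch (l m X Y : List (ℕ × ℕ)) : Bool :=
  (X.all fun p => mem p.1 p.2 l) && ((Y.all fun p => mem p.1 p.2 m) &&
  ((m.all fun p => mem p.1 p.2 Y || (mem p.1 p.2 l && !mem p.1 p.2 X)) &&
  (l.all fun p => mem p.1 p.2 X || mem p.1 p.2 m)))

theorem exch_spec (l m X Y : List (ℕ × ℕ)) (h : exch l m X Y = true) :
    (∀ p ∈ X, p ∈ l.toFinset) ∧ m.toFinset = (l.toFinset \ X.toFinset) ∪ Y.toFinset := by
  unfold exch at h
  simp only [Bool.and_eq_true, List.all_eq_true, Bool.or_eq_true, mem_iff, Bool.not_eq_true',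
    ← Bool.not_eq_true] at h
  obtain ⟨h1, h2, h3, h4⟩ := h
  refine ⟨fun p hp => List.mem_toFinset.2 (h1 p hp), ?_⟩
  ext p
  simp only [List.mem_toFinset, Finset.mem_union, Finset.mem_sdiff]
  constructor
  · intro hp
    rcases h3 p hp with h | h
    · exact Or.inr h
    · exact Or.inl h
  · rintro (⟨h, h'⟩ | h)
    · exact (h4 p h).resolve_left h'
    · exact h2 p h

/-- Check of a twist. -/
def twistB (l m : List (ℕ × ℕ)) (v₀ v₁ v₂ v₃ v₄ v₅ : ℕ) : Bool :=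
  (Nat.blt v₀ v₁ && (Nat.blt v₁ v₂ && (Nat.blt v₂ v₃ && (Nat.blt v₃ v₄ && Nat.blt v₄ v₅)))) &&
  ((edgeB l v₀ v₁ && (edgeB l v₁ v₂ && (edgeB l v₂ v₃ && (edgeB l v₃ v₄ && (edgeB l v₄ v₅ &&
    edgeB l v₀ v₅))))) &&
  (exch l m [(v₀, v₂), (v₂, v₄), (v₀, v₄)] [(v₁, v₃), (v₃, v₅), (v₁, v₅)] ||
    exch l m [(v₁, v₃), (v₃, v₅), (v₁, v₅)] [(v₀, v₂), (v₂, v₄), (v₀, v₄)]))

theorem toFinset_three (x y z : ℕ × ℕ) : [x, y, z].toFinset = {x, y, z} := by
  simp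

theorem twistB_spec (l m : List (ℕ × ℕ)) (v₀ v₁ v₂ v₃ v₄ v₅ : ℕ)
    (h : twistB l m v₀ v₁ v₂ v₃ v₄ v₅ = true) : Twist 14 l.toFinset m.toFinset := by
  unfold twistB at h
  simp only [Bool.and_eq_true, Nat.blt_eq, edgeB_iff] at h
  obtain ⟨⟨h1, h2, h3, h4, h5⟩, ⟨e1, e2, e3, e4, e5, e6⟩, h⟩ := h
  refine ⟨v₀, v₁, v₂, v₃, v₄, v₅, h1, h2, h3, h4, h5, e1, e2, e3, e4, e5, e6, ?_⟩
  rw [Bool.or_eq_true] at h
  rcases h with h | h
  · left
    obtain ⟨hX, hm⟩ := exch_spec _ _ _ _ h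
    rw [toFinset_three, toFinset_three] at hm
    exact ⟨hX _ (by simp), hX _ (by simp), hX _ (by simp), hm⟩
  · right
    obtain ⟨hX, hm⟩ := exch_spec _ _ _ _ h
    rw [toFinset_three, toFinset_three] at hm
    exact ⟨hX _ (by simp), hX _ (by simp), hX _ (by simp), hm⟩

/-- The `t`-th triangulation. -/
def tri (t : ℕ) : List (ℕ × ℕ) := EN.getD t []

/-- The twist from the `t`-th triangulation to its parent. -/
def parentOk (t : ℕ) (h : List ℕ) : Bool :=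
  twistB (tri t) (tri (parT.getD t 0)) (h.getD 0 0) (h.getD 1 0) (h.getD 2 0) (h.getD 3 0)
    (h.getD 4 0) (h.getD 5 0)

theorem all_valid : ∀ t : Fin 140, valid (tri t) = true := by
  decide +kernel

theorem all_parents : ∀ t : Fin 140, (t : ℕ) = 24 ∨
    (parT.getD t 0 < 140 ∧ depT.getD (parT.getD t 0) 0 < depT.getD t 0 ∧
      parentOk t (hexT.getD t []) = true) := by
  decide +kernel

theorem length_EN : EN.length = 140 := by
  decide +kernel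

/-- The vertices of the graph. -/
def vert (t : Fin 140) : {T : Finset (ℕ × ℕ) // IsTriangulation 14 T ∧ IsColorful 14 T} :=
  ⟨(tri t).toFinset, valid_spec _ (all_valid t)⟩

theorem vert_surj (T : {T : Finset (ℕ × ℕ) // IsTriangulation 14 T ∧ IsColorful 14 T}) :
    ∃ t : Fin 140, vert t = T := by
  obtain ⟨T, hT, hc⟩ := T
  obtain ⟨L, hL, hLT⟩ := en_complete 14 T hT hc 13 0 13 (by norm_num) (by norm_num) (by norm_num)
    (Or.inr ⟨by norm_num, by norm_num, Or.inr ⟨rfl, by norm_num⟩⟩)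
  rw [en_eq] at hL
  obtain ⟨t, ht, htL⟩ := List.getElem_of_mem hL
  have ht' : t < 140 := by rwa [length_EN] at ht
  refine ⟨⟨t, ht'⟩, ?_⟩
  apply Subtype.ext
  ext p
  have h1 : tri t = L := by
    rw [tri, List.getD_eq_getElem _ _ ht]
    exact htL
  change p ∈ (tri t).toFinset ↔ p ∈ T
  rw [h1, List.mem_toFinset, hLT]
  constructor
  · exact fun h => h.1
  · intro h
    have hd := hT.diag p h
    unfold IsDiag at hd
    refine ⟨h, Nat.zero_le _, by omega, ?_⟩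
    rintro rfl
    simp at hd

theorem reach_root (n : ℕ) : ∀ t : Fin 140, depT.getD t 0 = n →
    (twistGraph 14).Reachable (vert t) (vert 24) := by
  induction n using Nat.strong_induction_on with
  | _ n ih =>
    intro t ht
    rcases all_parents t with h | ⟨h1, h2, h3⟩
    · have : t = 24 := Fin.ext h
      rw [this]
    · have hrec := ih _ (ht ▸ h2) ⟨parT.getD t 0, h1⟩ rfl
      refine SimpleGraph.Reachable.trans ?_ hrec
      by_cases heq : vert t = vert ⟨parT.getD t 0, h1⟩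
      · rw [heq]
      · apply SimpleGraph.Adj.reachable
        exact ⟨heq, Or.inl (twistB_spec _ _ _ _ _ _ _ _ h3)⟩

theorem connected : (twistGraph 14).Connected := by
  have : Nonempty {T : Finset (ℕ × ℕ) // IsTriangulation 14 T ∧ IsColorful 14 T} := ⟨vert 0⟩
  refine ⟨fun T T' => ?_⟩
  obtain ⟨t, rfl⟩ := vert_surj T
  obtain ⟨t', rfl⟩ := vert_surj T'
  exact (reach_root _ t rfl).trans (reach_root _ t' rfl).symm

/-- **MP_b57ad3_co, negated form.** There is `N ≥ 8` with `N ≡ 2 (mod 3)`, namely `N = 14`, for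
which the graph of colorful triangulations of the `N`-gon and twists is connected. -/
theorem result : ∃ N : ℕ, 8 ≤ N ∧ N % 3 = 2 ∧ (twistGraph N).Connected :=
  ⟨14, by norm_num, by norm_num, connected⟩

end Pool.Agent.Results.MP_b57ad3_co.TwistFourteen
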